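import Mathlib
import Pool.Agent.Helper781.Fusion.PF

set_option autoImplicit false

namespace Pool.Agent.Results.MP_e10d7f_nt.DegreeFour

open Matrix Polynomial

/-- `r` is the spectral radius of a primitive `n × n` matrix with nonnegative integer entries. -/
def IsPFSize (r : ℝ) (n : ℕ) : Prop :=
  ∃ A : Matrix (Fin n) (Fin n) ℤ, A.IsPrimitive ∧
    spectralRadius ℂ (A.map (Int.cast : ℤ → ℂ)) = ENNReal.ofReal r

/-- If `d` bounds the spectrum and is an eigenvalue, it is the spectral radius. -/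
lemma spectralRadius_eq {n : ℕ} (M : Matrix (Fin n) (Fin n) ℂ) (d : ℝ) (hd : 0 ≤ d)
    (h1 : ∀ z ∈ spectrum ℂ M, ‖z‖ ≤ d) (h2 : (d : ℂ) ∈ spectrum ℂ M) :
    spectralRadius ℂ M = ENNReal.ofReal d := by
  apply le_antisymm
  · refine iSup₂_le fun z hz => ?_
    rw [← enorm_eq_nnnorm, ← ofReal_norm z]
    exact ENNReal.ofReal_le_ofReal (h1 z hz)
  · have h3 : ENNReal.ofReal d = ((‖(d : ℂ)‖₊ : NNReal) : ENNReal) := by
      rw [← enorm_eq_nnnorm, ← ofReal_norm, Complex.norm_real, Real.norm_of_nonneg hd]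
    rw [h3]
    exact le_iSup₂ (f := fun (k : ℂ) (_ : k ∈ spectrum ℂ M) => ((‖k‖₊ : NNReal) : ENNReal)) (d : ℂ) h2

/-- the eigenvalue of a positive eigenvector is in the complex spectrum -/
lemma mem_spectrum {n : ℕ} [Nonempty (Fin n)] (B : Matrix (Fin n) (Fin n) ℝ) (v : Fin n → ℝ)
    (hv : ∀ i, 0 < v i) {d : ℝ} (hd : B.mulVec v = d • v) :
    (d : ℂ) ∈ spectrum ℂ (B.map (fun x : ℝ => (x : ℂ))) := by
  rw [← Matrix.spectrum_toLin', ← Module.End.hasEigenvalue_iff_mem_spectrum]
  refine Module.End.hasEigenvalue_of_hasEigenvector (x := fun i => (v i : ℂ)) ?_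
  rw [Module.End.hasEigenvector_iff, Module.End.mem_eigenspace_iff]
  constructor
  · rw [Matrix.toLin'_apply]
    ext i
    have h1 := congrFun hd i
    simp only [Matrix.mulVec, dotProduct, Pi.smul_apply, smul_eq_mul, Matrix.map_apply] at h1 ⊢
    rw [← Complex.ofReal_mul, ← h1]
    push_cast
    rfl
  · intro h
    obtain ⟨i⟩ := (inferInstance : Nonempty (Fin n))
    have h1 := congrFun h i
    have h2 := (hv i).ne'
    apply h2
    simpa using h1

/-- the spectral radius of a primitive matrix is a root of its characteristic polynomial -/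
lemma root_of_primitive {n : ℕ} (A : Matrix (Fin n) (Fin n) ℤ) (hA : A.IsPrimitive) (r : ℝ)
    (hr : 0 < r) (hs : spectralRadius ℂ (A.map (Int.cast : ℤ → ℂ)) = ENNReal.ofReal r) :
    (A.charpoly.map (Int.castRingHom ℝ)).eval r = 0 := by
  obtain ⟨hnn, k, hk, hpos⟩ := hA
  have hne : Nonempty (Fin n) := by
    by_contra hemp
    rw [not_nonempty_iff] at hemp
    have : spectralRadius ℂ (A.map (Int.cast : ℤ → ℂ)) = 0 := by
      have h0 : Subsingleton (Matrix (Fin n) (Fin n) ℂ) := inferInstance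
      exact spectrum.SpectralRadius.of_subsingleton _
    rw [this] at hs
    have := ENNReal.ofReal_pos.2 hr
    rw [← hs] at this
    exact lt_irrefl _ this
  set B : Matrix (Fin n) (Fin n) ℝ := A.map (Int.cast : ℤ → ℝ) with hB
  have hBk : ∀ i j, 0 < (B ^ k) i j := by
    intro i j
    have h1 : B ^ k = (A ^ k).map (Int.cast : ℤ → ℝ) := by
      have := (Int.castRingHom ℝ).mapMatrix.map_pow A k
      simpa [RingHom.mapMatrix_apply, hB] using this.symm
    rw [h1, Matrix.map_apply]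
    exact_mod_cast hpos i j
  obtain ⟨v, hv, hcom⟩ := Pool.Agent.Helper781.Fusion.pf_common (B ^ k) hBk
  obtain ⟨d, hd⟩ := hcom B (pow_succ' B k ▸ (pow_succ B k ▸ rfl))
  have hBnn : ∀ i j, 0 ≤ B i j := by
    intro i j
    rw [hB, Matrix.map_apply]
    exact_mod_cast hnn i j
  have hbd := Pool.Agent.Helper781.Fusion.pf_bound B hBnn v hv d hd
  have hmap : B.map (fun x : ℝ => (x : ℂ)) = A.map (Int.cast : ℤ → ℂ) := by
    ext i j
    simp [hB]
  rw [hmap] at hbd
  obtain ⟨i0⟩ := id hne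
  have hd0 : 0 ≤ d := by
    have h1 := congrFun hd i0
    have h2 : 0 ≤ (B.mulVec v) i0 := by
      unfold Matrix.mulVec dotProduct
      exact Finset.sum_nonneg fun j _ => mul_nonneg (hBnn i0 j) (hv j).le
    rw [h1] at h2
    simp only [Pi.smul_apply, smul_eq_mul] at h2
    exact nonneg_of_mul_nonneg_left h2 (hv i0)
  have hvne : v ≠ 0 := fun h => by
    have := hv i0
    rw [h] at this
    exact lt_irrefl _ this
  have hroot : (B.charpoly).eval d = 0 := by
    have h1 : Module.End.HasEigenvalue (Matrix.toLin' B) d := by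
      refine Module.End.hasEigenvalue_of_hasEigenvector (x := v) ?_
      rw [Module.End.hasEigenvector_iff, Module.End.mem_eigenspace_iff]
      exact ⟨by rw [Matrix.toLin'_apply, hd], hvne⟩
    have h2 := (Module.End.hasEigenvalue_iff_isRoot_charpoly _ _).1 h1
    rw [Matrix.charpoly_toLin'] at h2
    exact h2
  have hmem : (d : ℂ) ∈ spectrum ℂ (A.map (Int.cast : ℤ → ℂ)) := by
    rw [← hmap]
    exact mem_spectrum B v hv hd
  have hsr := spectralRadius_eq _ d hd0 hbd hmem
  have hdr : d = r := by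
    rw [hsr] at hs
    exact (ENNReal.ofReal_eq_ofReal_iff hd0 hr.le).1 hs
  have h4 : B.charpoly = A.charpoly.map (Int.castRingHom ℝ) := Matrix.charpoly_map A (Int.castRingHom ℝ)
  rw [← h4, ← hdr]
  exact hroot


/-- The polynomial of the problem. -/
noncomputable def f : ℤ[X] := X ^ 3 + 3 * X ^ 2 - 15 * X - 46

lemma f_monic : f.Monic := by
  unfold f
  monicity!

lemma f_natDegree : f.natDegree = 3 := by
  unfold f
  compute_degree!

lemma f_irreducible : Irreducible f := by
  rw [f_monic.irreducible_iff_roots_eq_zero_of_degree_le_three (by rw [f_natDegree]; norm_num)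
    (by rw [f_natDegree])]
  rw [Multiset.eq_zero_iff_forall_notMem]
  intro a ha
  rw [mem_roots f_monic.ne_zero, IsRoot] at ha
  have h : a ^ 3 + 3 * a ^ 2 - 15 * a - 46 = 0 := by
    simpa [f] using ha
  have h2 := congrArg (Int.cast : ℤ → ZMod 5) h
  push_cast at h2
  generalize (a : ZMod 5) = b at h2
  revert b
  decide

/-- a monic integer polynomial of degree at most three with the root `r` is `f` -/
lemma eq_f {g : ℤ[X]} (hg : g.Monic) (hdeg : g.natDegree ≤ 3) {r : ℝ}
    (hr : r ^ 3 + 3 * r ^ 2 - 15 * r - 46 = 0) (hgr : (g.map (Int.castRingHom ℝ)).eval r = 0) :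
    g = f := by
  have h1 : aeval r f = 0 := by
    simp only [f, map_sub, map_add, map_mul, map_pow, aeval_X, map_ofNat]
    exact hr
  have h2 : aeval r g = 0 := by
    rw [aeval_def, ← eval_map]
    exact hgr
  have hint : IsIntegral ℤ r := ⟨f, f_monic, h1⟩
  have h3 := minpoly.isIntegrallyClosed_dvd hint h1
  have h4 : f = minpoly ℤ r := by
    rcases f_irreducible.dvd_iff.1 h3 with h | h
    · exact absurd h (minpoly.not_isUnit ℤ r)
    · exact eq_of_monic_of_associated f_monic (minpoly.monic hint) h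
  have h5 := minpoly.isIntegrallyClosed_dvd hint h2
  rw [← h4] at h5
  exact eq_of_monic_of_dvd_of_natDegree_le f_monic hg h5 (by rw [f_natDegree]; exact hdeg)

/-- no primitive matrix of size at most three has spectral radius `r` -/
lemma four_le {r : ℝ} (hr0 : 0 < r) (hr : r ^ 3 + 3 * r ^ 2 - 15 * r - 46 = 0) {n : ℕ}
    (h : IsPFSize r n) : 4 ≤ n := by
  by_contra hn
  push Not at hn
  obtain ⟨A, hA, hs⟩ := h
  have h1 := root_of_primitive A hA r hr0 hs
  have h2 : A.charpoly = f := eq_f (Matrix.charpoly_monic A)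
    (by rw [Matrix.charpoly_natDegree_eq_dim, Fintype.card_fin]; omega) hr h1
  have h3 : n = 3 := by
    have := Matrix.charpoly_natDegree_eq_dim A
    rw [h2, f_natDegree, Fintype.card_fin] at this
    exact this.symm
  subst h3
  have h4 := Matrix.trace_eq_neg_charpoly_coeff A
  rw [h2, Fintype.card_fin] at h4
  have h5 : f.coeff (3 - 1) = 3 := by
    norm_num [f, coeff_X, coeff_ofNat_mul, coeff_X_pow]
  rw [h5] at h4
  have h6 : 0 ≤ A.trace := Finset.sum_nonneg fun i _ => hA.nonneg i i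
  omega

/-- A primitive matrix of size four. -/
def W : Matrix (Fin 4) (Fin 4) ℤ := !![0, 1, 0, 0; 12, 0, 1, 0; 1, 0, 0, 6; 1, 0, 2, 0]

lemma W_primitive : W.IsPrimitive := by
  have h1 : ∀ i j : Fin 4, (0 : ℤ) ≤ W i j := by
    intro i j
    fin_cases i <;> fin_cases j <;> simp [W]
  have h2 : ∀ i j : Fin 4, (0 : ℤ) < (W ^ 7) i j := by
    intro i j
    fin_cases i <;> fin_cases j <;> simp [W, pow_succ, Matrix.mul_apply, Fin.sum_univ_four]
  exact ⟨h1, 7, by norm_num, h2⟩

lemma W_size {r : ℝ} (h1 : 19 / 5 ≤ r) (h2 : r ≤ 4)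
    (hr : r ^ 3 + 3 * r ^ 2 - 15 * r - 46 = 0) : IsPFSize r 4 := by
  refine ⟨W, W_primitive, ?_⟩
  set B : Matrix (Fin 4) (Fin 4) ℝ := W.map (Int.cast : ℤ → ℝ) with hB
  set v : Fin 4 → ℝ := ![1, r, r ^ 2 - 12, (r ^ 3 - 12 * r - 1) / 6] with hv
  have hv0 : ∀ i, 0 < v i := by
    intro i
    fin_cases i <;> simp [hv] <;> nlinarith
  have hvB : B.mulVec v = r • v := by
    ext i
    fin_cases i
    · simp [hB, hv, W, Matrix.mulVec, dotProduct, Fin.sum_univ_four]
    · simp [hB, hv, W, Matrix.mulVec, dotProduct, Fin.sum_univ_four]; ring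
    · simp [hB, hv, W, Matrix.mulVec, dotProduct, Fin.sum_univ_four]; ring
    · simp [hB, hv, W, Matrix.mulVec, dotProduct, Fin.sum_univ_four]; nlinarith
  have hBnn : ∀ i j, 0 ≤ B i j := by
    intro i j
    rw [hB, Matrix.map_apply]
    exact_mod_cast W_primitive.nonneg i j
  have hbd := Pool.Agent.Helper781.Fusion.pf_bound B hBnn v hv0 r hvB
  have hmap : B.map (fun x : ℝ => (x : ℂ)) = W.map (Int.cast : ℤ → ℂ) := by
    ext i j
    simp [hB]
  rw [hmap] at hbd
  refine spectralRadius_eq _ r (by linarith) hbd ?_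
  rw [← hmap]
  exact mem_spectrum B v hv0 hvB

/-- **The Perron-Frobenius degree of the largest root of `t ^ 3 + 3 t ^ 2 - 15 t - 46` is `4`.**
The set of the real roots has a greatest element `r`; four is the least `n` for which `r` is the
spectral radius of a primitive `n × n` matrix with nonnegative integer entries. -/
theorem result :
    (∃ r : ℝ, IsGreatest {t : ℝ | t ^ 3 + 3 * t ^ 2 - 15 * t - 46 = 0} r) ∧
    ∀ r : ℝ, IsGreatest {t : ℝ | t ^ 3 + 3 * t ^ 2 - 15 * t - 46 = 0} r →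
      IsLeast {n : ℕ | IsPFSize r n} 4 := by
  obtain ⟨r0, hr0, hr0'⟩ : ∃ r0 ∈ Set.Icc (19 / 5 : ℝ) 4,
      r0 ^ 3 + 3 * r0 ^ 2 - 15 * r0 - 46 = 0 := by
    have hc : ContinuousOn (fun t : ℝ => t ^ 3 + 3 * t ^ 2 - 15 * t - 46) (Set.Icc (19 / 5) 4) := by
      fun_prop
    have := intermediate_value_Icc (by norm_num : (19 / 5 : ℝ) ≤ 4) hc
    obtain ⟨t, ht, ht'⟩ := this (show (0 : ℝ) ∈ _ by constructor <;> norm_num)
    exact ⟨t, ht, ht'⟩
  have key : ∀ t : ℝ, t ^ 3 + 3 * t ^ 2 - 15 * t - 46 = 0 → t ≤ r0 := by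
    intro t ht
    by_contra hcon
    push Not at hcon
    have h1 := hr0.1
    have h2 : (t - r0) * (t ^ 2 + t * r0 + r0 ^ 2 + 3 * (t + r0) - 15) = 0 := by linarith
    rcases mul_eq_zero.1 h2 with h | h
    · linarith
    · nlinarith
  refine ⟨⟨r0, hr0', fun t ht => key t ht⟩, fun r hr => ?_⟩
  have h1 : r = r0 := le_antisymm (key r hr.1) (hr.2 hr0')
  subst h1
  refine ⟨W_size hr0.1 hr0.2 hr0', fun n hn => four_le (by linarith [hr0.1]) hr0' hn⟩

end Pool.Agent.Results.MP_e10d7f_nt.DegreeFour
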